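import Pool.Agent.helper25.TW.Spec
import Pool.Agent.helper64.TP.Basic

/-!
# Project TW (MP_f42afa_pr), row MEN: minimal cut and disjoint crossings (helper67)
-/

set_option autoImplicit false

namespace TP.TW

open DP MeasureTheory Finset

/-- Sites reachable from the side `P` through at most `j` bricks of colour `k`. -/
private def MEN_A (c : V → Bool) (k : Bool) (R : Set V) (P : V → Prop) (j : ℕ) : Set V :=
  {z | ∃ (W : Set V) (u : V), W ⊆ R ∧ P u ∧ Con W u z ∧
    ∃ B : Finset V, B.card ≤ j ∧ ∀ w ∈ W, c w = k → br w ∈ B}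

/-- The sites of colour `k` at the boundary of `MEN_A j`. -/
private def MEN_L (c : V → Bool) (k : Bool) (R : Set V) (P : V → Prop) (j : ℕ) : Set V :=
  {z | z ∈ R ∧ c z = k ∧ z ∉ MEN_A c k R P j ∧ (P z ∨ ∃ y ∈ MEN_A c k R P j, Adj y z)}

private theorem MEN_A_mono (c : V → Bool) (k : Bool) (R : Set V) (P : V → Prop) {i j : ℕ}
    (h : i ≤ j) : MEN_A c k R P i ⊆ MEN_A c k R P j := by
  rintro z ⟨W, u, h1, h2, h3, B, h4, h5⟩
  exact ⟨W, u, h1, h2, h3, B, h4.trans h, h5⟩

/-- Adding a neighbour: the set of bricks is enlarged by `D`. -/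
private theorem MEN_A_step (c : V → Bool) (k : Bool) (R : Set V) (P : V → Prop) {i j : ℕ}
    {y z : V} (hz : z ∈ R) (hyz : Adj y z) (hy : y ∈ MEN_A c k R P i)
    (h : c z = k → i + 1 ≤ j) (hij : i ≤ j) : z ∈ MEN_A c k R P j := by
  classical
  obtain ⟨W, u, h1, h2, h3, B, h4, h5⟩ := hy
  have hW : insert z W ⊆ R := Set.insert_subset hz h1
  have hC : Con (insert z W) u z :=
    (h3.mono (Set.subset_insert z W)).tail hyz (Set.mem_insert z W)
  by_cases hc : c z = k
  · refine ⟨insert z W, u, hW, h2, hC, insert (br z) B, ?_, ?_⟩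
    · exact (Finset.card_insert_le _ _).trans (by have := h hc; omega)
    · intro w hw hk
      rcases hw with rfl | hw
      · exact Finset.mem_insert_self _ _
      · exact Finset.mem_insert_of_mem (h5 w hw hk)
  · refine ⟨insert z W, u, hW, h2, hC, B, h4.trans hij, ?_⟩
    intro w hw hk
    rcases hw with rfl | hw
    · exact absurd hk hc
    · exact h5 w hw hk

private theorem MEN_A_start (c : V → Bool) (k : Bool) (R : Set V) (P : V → Prop) {j : ℕ}
    {z : V} (hz : z ∈ R) (hP : P z) (h : c z = k → 1 ≤ j) : z ∈ MEN_A c k R P j := by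
  classical
  have hC : Con ({z} : Set V) z z := DP.Con.refl (Set.mem_singleton z)
  have hW : ({z} : Set V) ⊆ R := Set.singleton_subset_iff.2 hz
  by_cases hc : c z = k
  · refine ⟨{z}, z, hW, hP, hC, {br z}, ?_, ?_⟩
    · rw [Finset.card_singleton]
      exact h hc
    · intro w hw _
      rw [Set.mem_singleton_iff.1 hw]
      exact Finset.mem_singleton_self _
  · refine ⟨{z}, z, hW, hP, hC, ∅, by simp, ?_⟩
    intro w hw hk
    rw [Set.mem_singleton_iff.1 hw] at hk
    exact absurd hk hc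

/-- The other site of a brick of colour `k`. -/
private theorem MEN_A_brick (c : V → Bool) (k : Bool) (R : Set V) (P : V → Prop) {j : ℕ}
    {z z' : V} (hz' : z' ∈ R) (hk : c z = k) (hb : br z = br z') (hz : z ∈ MEN_A c k R P j) :
    z' ∈ MEN_A c k R P j := by
  classical
  by_cases hne : z = z'
  · exact hne ▸ hz
  obtain ⟨W, u, h1, h2, h3, B, h4, h5⟩ := hz
  have hzB : br z ∈ B := h5 z h3.mem_right hk
  refine ⟨insert z' W, u, Set.insert_subset hz' h1, h2,
    (h3.mono (Set.subset_insert z' W)).tail (br_adj hb hne) (Set.mem_insert z' W), B, h4, ?_⟩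
  intro w hw hk'
  rcases hw with rfl | hw
  · exact hb ▸ hzB
  · exact h5 w hw hk'

private theorem MEN_L_dis (c : V → Bool) (k : Bool) (R : Set V) (P : V → Prop) {i j : ℕ}
    (hij : i < j) : BDis (MEN_L c k R P i) (MEN_L c k R P j) := by
  rintro z ⟨hzR, hzk, -, hz⟩ z' ⟨hz'R, -, hz', -⟩ hb
  have h1 : z ∈ MEN_A c k R P (i + 1) := by
    rcases hz with hP | ⟨y, hy, hyz⟩
    · exact MEN_A_start c k R P hzR hP fun _ => by omega
    · exact MEN_A_step c k R P hzR hyz hy (fun _ => le_rfl) (by omega)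
  exact hz' (MEN_A_mono c k R P hij (MEN_A_brick c k R P hz'R hzk hb h1))

private theorem MEN_key (c : V → Bool) (k : Bool) (R : Set V) (P Q P' Q' : V → Prop)
    (hex : ∀ c' : V → Bool, (∃ u v : V, P u ∧ Q v ∧ Conn c' false R u v) ∨
      ∃ u v : V, P' u ∧ Q' v ∧ Conn c' true R u v) (K : ℕ) :
    (∃ (W : Set V) (u v : V), W ⊆ R ∧ Con W u v ∧ (P u ∧ Q v) ∧
      ∃ B : Finset V, B.card ≤ K ∧ ∀ w ∈ W, c w = k → br w ∈ B) ∨
    ∃ L : ℕ → Set V, (∀ i < K + 1, ∃ u v : V, (P' u ∧ Q' v) ∧ Conn c k (R ∩ L i) u v) ∧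
      ∀ i < K + 1, ∀ j < K + 1, i ≠ j → BDis (L i) (L j) := by
  classical
  by_cases hA : ∃ v ∈ MEN_A c k R P K, Q v
  · obtain ⟨v, ⟨W, u, h1, h2, h3, h4⟩, hv⟩ := hA
    exact Or.inl ⟨W, u, v, h1, h3, ⟨h2, hv⟩, h4⟩
  right
  refine ⟨MEN_L c k R P, ?_, ?_⟩
  · intro i hi
    rcases hex fun z => decide (z ∈ MEN_L c k R P i) with ⟨u, v, hu, hv, hC⟩ | ⟨u, v, hu, hv, hC⟩
    · exfalso
      have hnot : ∀ z : V, decide (z ∈ MEN_L c k R P i) = false → z ∉ MEN_L c k R P i :=
        fun z hz => of_decide_eq_false hz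
      have hvA : v ∈ MEN_A c k R P i := by
        refine Con.induct hC (fun z => z ∈ MEN_A c k R P i) ?_ ?_
        · have huR : u ∈ R := hC.1.1
          have huL : u ∉ MEN_L c k R P i := hnot u hC.1.2
          by_cases hk : c u = k
          · by_contra huA
            exact huL ⟨huR, hk, huA, Or.inl hu⟩
          · exact MEN_A_start c k R P huR hu fun h => absurd h hk
        · rintro y z - ⟨hzR, hzL⟩ hyz - hy
          have hzL' : z ∉ MEN_L c k R P i := hnot z hzL
          by_cases hk : c z = k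
          · by_contra hzA
            exact hzL' ⟨hzR, hk, hzA, Or.inr ⟨y, hy, hyz⟩⟩
          · exact MEN_A_step c k R P hzR hyz hy (fun h => absurd h hk) le_rfl
      exact hA ⟨v, MEN_A_mono c k R P (by omega) hvA, hv⟩
    · refine ⟨u, v, ⟨hu, hv⟩, Con.mono ?_ hC⟩
      rintro w ⟨hwR, hwL⟩
      have hwL' : w ∈ MEN_L c k R P i := of_decide_eq_true hwL
      exact ⟨⟨hwR, hwL'⟩, hwL'.2.1⟩
  · intro i _ j _ hij
    rcases lt_or_gt_of_ne hij with h | h
    · exact MEN_L_dis c k R P h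
    · exact (MEN_L_dis c k R P h).symm

theorem MEN (hx : DP.HX_stmt) : MEN_stmt := by
  intro o β k a b d e K hab hde
  cases o with
  | true =>
    have h := MEN_key (TP.col β) k (rect a b d e) (fun u => u.1 = a) (fun v => v.1 = b)
      (fun u => u.2 = d) (fun v => v.2 = e) (fun c' => by
        rcases hx c' false a b d e hab hde with ⟨u, v, h1, h2, h3⟩ | ⟨u, v, h1, h2, h3⟩
        · exact Or.inl ⟨u, v, h1, h2, h3⟩
        · exact Or.inr ⟨u, v, h1, h2, h3⟩) K
    rcases h with ⟨W, u, v, h1, h2, h3, h4⟩ | ⟨L, h1, h2⟩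
    · left
      exact ⟨W, u, v, h1, h2, by simpa using h3, h4⟩
    · right
      refine ⟨L, fun i hi => ?_, h2⟩
      obtain ⟨u, v, h3, h4⟩ := h1 i hi
      exact ⟨u, v, by simpa using h3, h4⟩
  | false =>
    have h := MEN_key (TP.col β) k (rect a b d e) (fun u => u.2 = d) (fun v => v.2 = e)
      (fun u => u.1 = a) (fun v => v.1 = b) (fun c' => by
        rcases hx c' true a b d e hab hde with ⟨u, v, h1, h2, h3⟩ | ⟨u, v, h1, h2, h3⟩
        · exact Or.inr ⟨u, v, h1, h2, h3⟩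
        · exact Or.inl ⟨u, v, h1, h2, h3⟩) K
    rcases h with ⟨W, u, v, h1, h2, h3, h4⟩ | ⟨L, h1, h2⟩
    · left
      exact ⟨W, u, v, h1, h2, by simpa using h3, h4⟩
    · right
      refine ⟨L, fun i hi => ?_, h2⟩
      obtain ⟨u, v, h3, h4⟩ := h1 i hi
      exact ⟨u, v, by simpa using h3, h4⟩

end TP.TW
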